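import Mathlib
open Filter Topology

namespace Pool.Agent.Results.MP_66f42e_an.CountablePiBase

/-- Nodes of the infinite binary tree: finite 0-1 sequences, written from the last digit to the
first, so that `s` is an initial segment of `t` iff the list `s` is a suffix of the list `t`. -/
abbrev Node := List Bool

/-- antichains of the tree -/
def IsAnti (A : Set Node) : Prop := ∀ s ∈ A, ∀ t ∈ A, s <:+ t → s = t

/-- chains -/
def IsCh (C : Set Node) : Prop := ∀ s ∈ C, ∀ t ∈ C, s <:+ t ∨ t <:+ s

/-- the sum of `|x t|` over `t ∈ A` -/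
noncomputable def SA (A : Set Node) (x : Node →₀ ℝ) : ℝ :=
  ∑ t ∈ x.support, A.indicator (fun t => |x t|) t

/-- the stopping time norm -/
noncomputable def stNorm (x : Node →₀ ℝ) : ℝ := ⨆ A : {A : Set Node // IsAnti A}, SA A.1 x

lemma SA_eq (A : Set Node) (x : Node →₀ ℝ) (S : Finset Node) (hS : x.support ⊆ S) :
    SA A x = ∑ t ∈ S, A.indicator (fun t => |x t|) t := by
  unfold SA
  refine Finset.sum_subset hS fun t _ ht => ?_
  rw [Finsupp.notMem_support_iff] at ht
  simp [Set.indicator, ht]

lemma SA_nonneg (A : Set Node) (x : Node →₀ ℝ) : 0 ≤ SA A x :=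
  Finset.sum_nonneg fun t _ => Set.indicator_nonneg (fun _ _ => abs_nonneg _) t

lemma SA_le_l1 (A : Set Node) (x : Node →₀ ℝ) : SA A x ≤ ∑ t ∈ x.support, |x t| := by
  refine Finset.sum_le_sum fun t _ => ?_
  exact Set.indicator_le_self' (fun _ _ => abs_nonneg _) t

lemma bdd (x : Node →₀ ℝ) : BddAbove (Set.range fun A : {A : Set Node // IsAnti A} => SA A.1 x) :=
  ⟨_, by rintro _ ⟨A, rfl⟩; exact SA_le_l1 A.1 x⟩

lemma SA_le (x : Node →₀ ℝ) {A : Set Node} (hA : IsAnti A) : SA A x ≤ stNorm x :=
  le_ciSup (bdd x) ⟨A, hA⟩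

instance : Nonempty {A : Set Node // IsAnti A} := ⟨⟨∅, by simp [IsAnti]⟩⟩

lemma stNorm_le {x : Node →₀ ℝ} {r : ℝ} (h : ∀ A, IsAnti A → SA A x ≤ r) : stNorm x ≤ r :=
  ciSup_le fun A => h A.1 A.2

lemma stNorm_nonneg (x : Node →₀ ℝ) : 0 ≤ stNorm x :=
  (SA_nonneg ∅ x).trans (SA_le x (by simp [IsAnti]))

lemma coord_le (x : Node →₀ ℝ) (t : Node) : |x t| ≤ stNorm x := by
  have hA : IsAnti {t} := by
    rintro a rfl b rfl _; rfl
  refine le_trans ?_ (SA_le x hA)
  by_cases ht : t ∈ x.support
  · refine le_trans ?_ (Finset.single_le_sum (f := fun s => ({t} : Set Node).indicator (fun t => |x t|) s)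
      (fun s _ => Set.indicator_nonneg (fun _ _ => abs_nonneg _) s) ht)
    simp
  · rw [Finsupp.notMem_support_iff] at ht
    rw [ht, abs_zero]
    exact SA_nonneg _ _

lemma SA_add_le (A : Set Node) (x y : Node →₀ ℝ) : SA A (x + y) ≤ SA A x + SA A y := by
  classical
  rw [SA_eq A (x + y) (x.support ∪ y.support) Finsupp.support_add,
    SA_eq A x (x.support ∪ y.support) Finset.subset_union_left,
    SA_eq A y (x.support ∪ y.support) Finset.subset_union_right, ← Finset.sum_add_distrib]
  refine Finset.sum_le_sum fun t _ => ?_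
  by_cases ht : t ∈ A
  · simp only [Set.indicator_of_mem ht, Finsupp.add_apply]
    exact abs_add_le _ _
  · simp [Set.indicator_of_notMem ht]

lemma SA_smul (A : Set Node) (c : ℝ) (x : Node →₀ ℝ) : SA A (c • x) = |c| * SA A x := by
  classical
  rw [SA_eq A (c • x) x.support Finsupp.support_smul, SA, Finset.mul_sum]
  refine Finset.sum_congr rfl fun t _ => ?_
  by_cases ht : t ∈ A
  · simp [Set.indicator_of_mem ht, abs_mul]
  · simp [Set.indicator_of_notMem ht]

lemma stNorm_add (x y : Node →₀ ℝ) : stNorm (x + y) ≤ stNorm x + stNorm y :=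
  stNorm_le fun A hA => (SA_add_le A x y).trans (add_le_add (SA_le x hA) (SA_le y hA))

lemma stNorm_smul (c : ℝ) (x : Node →₀ ℝ) : stNorm (c • x) = |c| * stNorm x := by
  unfold stNorm
  rw [Real.mul_iSup_of_nonneg (abs_nonneg c)]
  exact iSup_congr fun A => SA_smul A.1 c x

lemma stNorm_eq_zero {x : Node →₀ ℝ} (h : stNorm x = 0) : x = 0 := by
  ext t
  have := coord_le x t
  rw [h] at this
  simpa using abs_nonpos_iff.1 this

/-- finitely supported families, with the stopping time norm -/
def C00 : Type := Node →₀ ℝ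

noncomputable instance : AddCommGroup C00 := inferInstanceAs (AddCommGroup (Node →₀ ℝ))
noncomputable instance : Module ℝ C00 := inferInstanceAs (Module ℝ (Node →₀ ℝ))
noncomputable instance : Norm C00 := ⟨fun x => stNorm x⟩

lemma core00 : NormedSpace.Core ℝ C00 where
  norm_nonneg x := stNorm_nonneg x
  norm_smul c x := stNorm_smul c x
  norm_triangle x y := stNorm_add x y
  norm_eq_zero_iff x := ⟨fun h => stNorm_eq_zero h, by
    rintro rfl
    have := stNorm_smul 0 (0 : Node →₀ ℝ)
    rw [smul_zero, abs_zero, zero_mul] at this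
    exact this⟩

noncomputable instance : NormedAddCommGroup C00 := NormedAddCommGroup.ofCore core00
noncomputable instance : NormedSpace ℝ C00 := NormedSpace.ofCore core00

/-- the stopping time space: the completion of the finitely supported families -/
abbrev X : Type := UniformSpace.Completion C00

/-- `U` is a relatively weakly open subset of the closed unit ball of `X` -/
def RelWeaklyOpen (U : Set X) : Prop :=
  ∃ O : Set (WeakSpace ℝ X), IsOpen O ∧ U = {x : X | ‖x‖ ≤ 1 ∧ toWeakSpace ℝ X x ∈ O}

/-- the closed unit ball of `X` has a countable `π`-base for its relative weak topology -/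
def HasCountableWeakPiBase : Prop :=
  ∃ 𝒰 : Set (Set X), 𝒰.Countable ∧ (∀ U ∈ 𝒰, U.Nonempty ∧ RelWeaklyOpen U) ∧
    ∀ W : Set X, W.Nonempty → RelWeaklyOpen W → ∃ U ∈ 𝒰, U ⊆ W

/-- weighted Mirsky inequality -/
lemma mirsky (n : ℕ) : ∀ (S : Finset Node), S.card ≤ n → ∀ (h y : Node → ℝ) (g N : ℝ),
    (∀ u ∈ S, 0 ≤ h u) → 0 ≤ g → 0 ≤ N →
    (∀ C : Finset Node, C ⊆ S → IsCh (C : Set Node) → ∑ u ∈ C, h u ≤ g) →
    (∀ A : Finset Node, A ⊆ S → IsAnti (A : Set Node) → ∑ u ∈ A, |y u| ≤ N) →
    ∑ u ∈ S, h u * |y u| ≤ g * N := by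
  classical
  induction n with
  | zero =>
    intro S hS h y g N _ hg hN _ _
    have : S = ∅ := Finset.card_eq_zero.1 (Nat.le_zero.1 hS)
    rw [this, Finset.sum_empty]; positivity
  | succ n ih =>
    intro S hS h y g N hh hg hN hC hA
    rcases S.eq_empty_or_nonempty with hne | hne
    · rw [hne, Finset.sum_empty]; positivity
    -- minimal elements
    set Mn := S.filter (fun u => ∀ v ∈ S, v <:+ u → v = u) with hMn
    have hexmin : ∀ u ∈ S, ∃ m ∈ Mn, m <:+ u := by
      intro u hu
      obtain ⟨m, hm, hmin⟩ := Finset.exists_min_image (S.filter (fun v => v <:+ u)) List.length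
        ⟨u, by simp [hu]⟩
      rw [Finset.mem_filter] at hm
      refine ⟨m, ?_, hm.2⟩
      rw [hMn, Finset.mem_filter]
      refine ⟨hm.1, fun v hv hvm => ?_⟩
      have h1 := hmin v (by rw [Finset.mem_filter]; exact ⟨hv, hvm.trans hm.2⟩)
      exact hvm.eq_of_length (le_antisymm hvm.length_le h1)
    obtain ⟨u0, hu0⟩ := hne
    obtain ⟨m0, hm0, _⟩ := hexmin u0 hu0
    obtain ⟨m, hm, hmin⟩ := Finset.exists_min_image Mn h ⟨m0, hm0⟩
    set δ := h m with hδ
    have hmS : m ∈ S := (Finset.mem_filter.1 hm).1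
    have hδ0 : 0 ≤ δ := hh m hmS
    have hδg : δ ≤ g := by
      have := hC {m} (by simpa using hmS) (by
        intro a ha b hb
        simp only [Finset.coe_singleton, Set.mem_singleton_iff] at ha hb
        left; rw [ha, hb])
      simpa using this
    set h' : Node → ℝ := fun u => if u ∈ Mn then h u - δ else h u with hh'
    have hanti : IsAnti (Mn : Set Node) := by
      intro a ha b hb hab
      exact (Finset.mem_filter.1 hb).2 a (Finset.mem_filter.1 ha).1 hab
    have hMA : ∑ u ∈ Mn, |y u| ≤ N := hA Mn (Finset.filter_subset _ _) hanti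
    have hsplit : ∑ u ∈ S, h u * |y u| = ∑ u ∈ S, h' u * |y u| + δ * ∑ u ∈ Mn, |y u| := by
      have e1 : ∑ u ∈ Mn, |y u| = ∑ u ∈ S, if u ∈ Mn then |y u| else 0 := by
        rw [← Finset.sum_filter]
        congr 1
        ext u
        simp only [Finset.mem_filter, hMn]
        tauto
      rw [e1, Finset.mul_sum, ← Finset.sum_add_distrib]
      refine Finset.sum_congr rfl fun u _ => ?_
      by_cases hu : u ∈ Mn
      · simp only [hh', if_pos hu]; ring
      · simp only [hh', if_neg hu]; ring
    have herase : ∑ u ∈ S, h' u * |y u| = ∑ u ∈ S.erase m, h' u * |y u| := by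
      rw [← Finset.add_sum_erase S _ hmS]
      have : h' m = 0 := by simp only [hh', if_pos hm]; rw [hδ]; ring
      rw [this]; ring
    have hIH := ih (S.erase m) (by rw [Finset.card_erase_of_mem hmS]; omega) h' y (g - δ) N ?_
      (by linarith) hN ?_ ?_
    · rw [hsplit, herase]
      nlinarith
    · intro u hu
      have huS := Finset.mem_of_mem_erase hu
      by_cases hu' : u ∈ Mn
      · simp only [hh', if_pos hu']
        linarith [hmin u hu']
      · simp only [hh', if_neg hu']
        exact hh u huS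
    · intro C hCS hCc
      have hCS' : C ⊆ S := hCS.trans (Finset.erase_subset _ _)
      rcases C.eq_empty_or_nonempty with hCe | hCe
      · rw [hCe, Finset.sum_empty]; linarith
      by_cases hcase : ∃ v ∈ C, v ∈ Mn
      · obtain ⟨v, hv, hvM⟩ := hcase
        have e : ∑ u ∈ C, h' u = ∑ u ∈ C, h u - δ := by
          rw [← Finset.add_sum_erase C _ hv, ← Finset.add_sum_erase C h hv]
          have : ∑ u ∈ C.erase v, h' u = ∑ u ∈ C.erase v, h u := by
            refine Finset.sum_congr rfl fun u hu => ?_
            have huv := Finset.ne_of_mem_erase hu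
            have huC := Finset.mem_of_mem_erase hu
            have : u ∉ Mn := by
              intro huM
              rcases hCc u huC v hv with h1 | h1
              · exact huv (hanti u huM v hvM h1)
              · exact huv (hanti v hvM u huM h1).symm
            simp only [hh', if_neg this]
          rw [this]
          simp only [hh', if_pos hvM]
          ring
        rw [e]
        linarith [hC C hCS' hCc]
      · push Not at hcase
        have e : ∑ u ∈ C, h' u = ∑ u ∈ C, h u := by
          refine Finset.sum_congr rfl fun u hu => ?_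
          simp only [hh', if_neg (hcase u hu)]
        -- smallest element of C
        obtain ⟨v, hv, hvmin⟩ := Finset.exists_min_image C List.length hCe
        obtain ⟨w, hw, hwv⟩ := hexmin v (hCS' hv)
        have hwC : w ∉ C := fun h => hcase w h hw
        have hch : IsCh ((insert w C : Finset Node) : Set Node) := by
          have hvle : ∀ u ∈ C, v <:+ u := by
            intro u hu
            rcases hCc v hv u hu with h1 | h1
            · exact h1
            · have := h1.eq_of_length (le_antisymm h1.length_le (hvmin u hu))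
              rw [this]
          intro a ha b hb
          rw [Finset.coe_insert, Set.mem_insert_iff, Finset.mem_coe] at ha hb
          rcases ha with rfl | ha <;> rcases hb with rfl | hb
          · left; exact List.suffix_rfl
          · left; exact hwv.trans (hvle b hb)
          · right; exact hwv.trans (hvle a ha)
          · exact hCc a ha b hb
        have h1 := hC (insert w C) (Finset.insert_subset (Finset.mem_filter.1 hw).1 hCS') hch
        rw [Finset.sum_insert hwC] at h1
        rw [e]
        linarith [hmin w hw]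
    · intro A hAS hAa
      exact hA A (hAS.trans (Finset.erase_subset _ _)) hAa


/-! ### flows -/

/-- superflows dominate finite antichains -/
lemma superflow (c : Node → ℝ) (hc0 : ∀ t, 0 ≤ c t)
    (hc : ∀ t, c (true :: t) + c (false :: t) ≤ c t) (n : ℕ) :
    ∀ (t : Node) (A : Finset Node), IsAnti (A : Set Node) → (∀ u ∈ A, t <:+ u) →
      (∀ u ∈ A, u.length ≤ t.length + n) → ∑ u ∈ A, c u ≤ c t := by
  classical
  induction n with
  | zero =>
    intro t A _ h1 h2
    have hsub : A ⊆ {t} := by
      intro u hu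
      rw [Finset.mem_singleton]
      exact ((h1 u hu).eq_of_length (le_antisymm (h1 u hu).length_le (by simpa using h2 u hu))).symm
    calc ∑ u ∈ A, c u ≤ ∑ u ∈ ({t} : Finset Node), c u :=
          Finset.sum_le_sum_of_subset_of_nonneg hsub fun u _ _ => hc0 u
      _ = c t := Finset.sum_singleton _ _
  | succ n ih =>
    intro t A hA h1 h2
    by_cases ht : t ∈ A
    · have hsub : A ⊆ {t} := by
        intro u hu
        rw [Finset.mem_singleton]
        exact (hA t ht u hu (h1 u hu)).symm
      calc ∑ u ∈ A, c u ≤ ∑ u ∈ ({t} : Finset Node), c u :=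
            Finset.sum_le_sum_of_subset_of_nonneg hsub fun u _ _ => hc0 u
        _ = c t := Finset.sum_singleton _ _
    · have hcover : A = A.filter (fun u => (true :: t) <:+ u) ∪ A.filter (fun u => (false :: t) <:+ u) := by
        ext u
        simp only [Finset.mem_union, Finset.mem_filter]
        constructor
        · intro hu
          obtain ⟨w, hw⟩ := h1 u hu
          have hwne : w ≠ [] := by
            rintro rfl
            exact ht (by rw [List.nil_append] at hw; rw [hw]; exact hu)
          obtain ⟨w', b, rfl⟩ : ∃ w' b, w = w' ++ [b] :=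
            ⟨w.dropLast, w.getLast hwne, (List.dropLast_append_getLast hwne).symm⟩
          rw [List.append_assoc, List.singleton_append] at hw
          cases b
          · right; exact ⟨hu, ⟨w', hw⟩⟩
          · left; exact ⟨hu, ⟨w', hw⟩⟩
        · rintro (h | h)
          · exact h.1
          · exact h.1
      have i1 := ih (true :: t) (A.filter (fun u => (true :: t) <:+ u)) (by
        intro a ha b hb hab
        exact hA a (Finset.mem_filter.1 ha).1 b (Finset.mem_filter.1 hb).1 hab)
        (fun u hu => (Finset.mem_filter.1 hu).2) (by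
        intro u hu
        have := h2 u (Finset.mem_filter.1 hu).1
        simp only [List.length_cons]; omega)
      have i2 := ih (false :: t) (A.filter (fun u => (false :: t) <:+ u)) (by
        intro a ha b hb hab
        exact hA a (Finset.mem_filter.1 ha).1 b (Finset.mem_filter.1 hb).1 hab)
        (fun u hu => (Finset.mem_filter.1 hu).2) (by
        intro u hu
        have := h2 u (Finset.mem_filter.1 hu).1
        simp only [List.length_cons]; omega)
      calc ∑ u ∈ A, c u ≤ ∑ u ∈ A.filter (fun u => (true :: t) <:+ u), c u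
            + ∑ u ∈ A.filter (fun u => (false :: t) <:+ u), c u := by
            conv_lhs => rw [hcover]
            have e := Finset.sum_union_inter (s₁ := A.filter (fun u => (true :: t) <:+ u))
              (s₂ := A.filter (fun u => (false :: t) <:+ u)) (f := c)
            have e0 : 0 ≤ ∑ u ∈ A.filter (fun u => (true :: t) <:+ u) ∩
              A.filter (fun u => (false :: t) <:+ u), c u := Finset.sum_nonneg fun u _ => hc0 u
            linarith
        _ ≤ c (true :: t) + c (false :: t) := add_le_add i1 i2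
        _ ≤ c t := hc t

/-- the norm of the part of `x` below `t` -/
noncomputable def Nx (x : Node →₀ ℝ) (t : Node) : ℝ := by
  classical
  exact stNorm (x.filter (fun u => t <:+ u))

lemma SA_filter (A : Set Node) (x : Node →₀ ℝ) (t : Node) [DecidablePred fun u => t <:+ u] :
    SA A (x.filter (fun u => t <:+ u)) = SA (A ∩ {u | t <:+ u}) x := by
  classical
  rw [SA_eq A (x.filter (fun u => t <:+ u)) x.support (by
    rw [Finsupp.support_filter]; exact Finset.filter_subset _ _), SA]
  refine Finset.sum_congr rfl fun u _ => ?_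
  by_cases h1 : u ∈ A <;> by_cases h2 : t <:+ u
  · simp [Set.indicator, h1, h2, Finsupp.filter_apply]
  · simp [Set.indicator, h1, h2, Finsupp.filter_apply]
  · simp [Set.indicator, h1, h2]
  · simp [Set.indicator, h1, h2]

lemma coord_le_Nx (x : Node →₀ ℝ) (t : Node) : |x t| ≤ Nx x t := by
  classical
  unfold Nx
  refine le_trans ?_ (coord_le _ t)
  rw [Finsupp.filter_apply_pos]
  exact List.suffix_rfl

lemma Nx_nonneg (x : Node →₀ ℝ) (t : Node) : 0 ≤ Nx x t := by
  unfold Nx; exact stNorm_nonneg _

lemma Nx_nil (x : Node →₀ ℝ) : Nx x [] ≤ stNorm x := by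
  classical
  unfold Nx
  refine stNorm_le fun A hA => ?_
  rw [SA_filter]
  refine SA_le x ?_
  intro a ha b hb hab
  exact hA a ha.1 b hb.1 hab

lemma not_both {t u : Node} (h1 : (true :: t) <:+ u) (h2 : (false :: t) <:+ u) : False := by
  obtain ⟨w1, hw1⟩ := h1
  obtain ⟨w2, hw2⟩ := h2
  have h := hw1.trans hw2.symm
  have hl : w1.length = w2.length := by
    have := congrArg List.length h
    simp only [List.length_append, List.length_cons] at this
    omega
  have := (List.append_inj h hl).2
  simp at this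

lemma Nx_children (x : Node →₀ ℝ) (t : Node) : Nx x (true :: t) + Nx x (false :: t) ≤ Nx x t := by
  classical
  unfold Nx
  refine ciSup_add_ciSup_le fun A1 A2 => ?_
  rw [SA_filter, SA_filter]
  set B : Set Node := (A1.1 ∩ {u | (true :: t) <:+ u}) ∪ (A2.1 ∩ {u | (false :: t) <:+ u}) with hB
  have hBanti : IsAnti B := by
    rintro a (ha | ha) b (hb | hb) hab
    · exact A1.2 a ha.1 b hb.1 hab
    · exfalso
      exact not_both (ha.2.trans hab) hb.2
    · exfalso
      exact not_both hb.2 (ha.2.trans hab)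
    · exact A2.2 a ha.1 b hb.1 hab
  have h1 := SA_le (x.filter (fun u => t <:+ u)) hBanti
  refine le_trans ?_ h1
  rw [SA_filter]
  have hBt : B ∩ {u | t <:+ u} = B := by
    refine Set.inter_eq_left.2 ?_
    rintro u (hu | hu)
    · exact (List.suffix_cons _ _).trans hu.2
    · exact (List.suffix_cons _ _).trans hu.2
  rw [hBt]
  unfold SA
  rw [← Finset.sum_add_distrib]
  refine Finset.sum_le_sum fun u _ => ?_
  by_cases k1 : u ∈ A1.1 ∩ {u | (true :: t) <:+ u}
  · have k2 : u ∉ A2.1 ∩ {u | (false :: t) <:+ u} := fun h => not_both k1.2 h.2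
    have k3 : u ∈ B := Or.inl k1
    rw [Set.indicator_of_mem k1, Set.indicator_of_notMem k2, Set.indicator_of_mem k3, add_zero]
  · by_cases k2 : u ∈ A2.1 ∩ {u | (false :: t) <:+ u}
    · have k3 : u ∈ B := Or.inr k2
      rw [Set.indicator_of_notMem k1, Set.indicator_of_mem k2, Set.indicator_of_mem k3, zero_add]
    · rw [Set.indicator_of_notMem k1, Set.indicator_of_notMem k2, add_zero]
      exact Set.indicator_nonneg (fun _ _ => abs_nonneg _) u

/-- an exact flow of total mass one dominating `x` -/
noncomputable def flow (x : Node →₀ ℝ) : Node → ℝ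
  | [] => 1
  | (b :: t) => Nx x (b :: t) + (flow x t - Nx x (true :: t) - Nx x (false :: t)) / 2

lemma flow_ge {x : Node →₀ ℝ} (hx : stNorm x ≤ 1) (t : Node) : Nx x t ≤ flow x t := by
  induction t with
  | nil => exact (Nx_nil x).trans hx
  | cons b t ih =>
    have := Nx_children x t
    simp only [flow]
    linarith

lemma flow_add (x : Node →₀ ℝ) (t : Node) : flow x (true :: t) + flow x (false :: t) = flow x t := by
  simp only [flow]; ring

/-- the nodes of level `n` -/
def lev : ℕ → Finset Node
  | 0 => {[]}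
  | (n + 1) => (lev n).image (fun t => true :: t) ∪ (lev n).image (fun t => false :: t)

lemma mem_lev (n : ℕ) : ∀ t : Node, t ∈ lev n ↔ t.length = n := by
  induction n with
  | zero => intro t; simp [lev]
  | succ n ih =>
    intro t
    simp only [lev, Finset.mem_union, Finset.mem_image, ih]
    constructor
    · rintro (⟨s, hs, rfl⟩ | ⟨s, hs, rfl⟩) <;> simp [hs]
    · intro h
      cases t with
      | nil => simp at h
      | cons b s =>
        simp only [List.length_cons, Nat.add_right_cancel_iff] at h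
        cases b
        · right; exact ⟨s, h, rfl⟩
        · left; exact ⟨s, h, rfl⟩

lemma sum_lev (x : Node →₀ ℝ) (n : ℕ) : ∑ s ∈ lev n, flow x s = 1 := by
  classical
  induction n with
  | zero => simp [lev, flow]
  | succ n ih =>
    rw [lev, Finset.sum_union]
    · rw [Finset.sum_image (by simp), Finset.sum_image (by simp), ← Finset.sum_add_distrib]
      rw [← ih]
      exact Finset.sum_congr rfl fun t _ => flow_add x t
    · rw [Finset.disjoint_left]
      intro u hu hu'
      obtain ⟨a, _, rfl⟩ := Finset.mem_image.1 hu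
      obtain ⟨b, _, hb⟩ := Finset.mem_image.1 hu'
      simp at hb

/-! ### good descendants -/

lemma good_desc (h : Node → ℝ) (K : ℝ)
    (hK : ∀ C : Finset Node, IsCh (C : Set Node) → ∑ u ∈ C, h u ≤ K) (s : Node) (n : ℕ)
    {ε : ℝ} (hε : 0 < ε) :
    ∃ t : Node, s <:+ t ∧ n < t.length ∧
      ∀ C : Finset Node, IsCh (C : Set Node) → (∀ u ∈ C, t <:+ u) → ∑ u ∈ C, h u ≤ ε := by
  classical
  set V : Set ℝ := {r | ∃ C : Finset Node, IsCh (C : Set Node) ∧ (∀ u ∈ C, s <:+ u) ∧ r = ∑ u ∈ C, h u} with hV
  have hVne : V.Nonempty := ⟨0, ∅, by simp [IsCh], by simp, by simp⟩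
  have hVb : BddAbove V := ⟨K, by rintro _ ⟨C, hC, _, rfl⟩; exact hK C hC⟩
  obtain ⟨r, ⟨C0, hC0, hC0s, rfl⟩, hr⟩ := exists_lt_of_lt_csSup hVne (by linarith : sSup V - ε < sSup V)
  -- maximal element of C0 ∪ {s}
  have hex : ∃ u : Node, s <:+ u ∧ ∀ v ∈ C0, v <:+ u := by
    rcases C0.eq_empty_or_nonempty with he | he
    · exact ⟨s, List.suffix_rfl, by simp [he]⟩
    · obtain ⟨u, hu, hmax⟩ := Finset.exists_max_image C0 List.length he
      refine ⟨u, hC0s u hu, fun v hv => ?_⟩
      rcases hC0 v hv u hu with h1 | h1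
      · exact h1
      · have := h1.eq_of_length (le_antisymm h1.length_le (hmax v hv))
        rw [this]
  obtain ⟨u, hsu, hu⟩ := hex
  set t : Node := List.replicate (n + 1) true ++ u with ht
  have hut : u <:+ t := List.suffix_append _ _
  have htl : t.length = n + 1 + u.length := by simp [ht]
  refine ⟨t, hsu.trans hut, by omega, ?_⟩
  intro C hC hCt
  have hdisj : Disjoint C0 C := by
    rw [Finset.disjoint_left]
    intro v hv hv'
    have h1 := (hu v hv).length_le
    have h2 := (hCt v hv').length_le
    omega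
  have hch : IsCh ((C0 ∪ C : Finset Node) : Set Node) := by
    intro a ha b hb
    rw [Finset.mem_coe, Finset.mem_union] at ha hb
    rcases ha with ha | ha <;> rcases hb with hb | hb
    · exact hC0 a ha b hb
    · left; exact ((hu a ha).trans hut).trans (hCt b hb)
    · right; exact ((hu b hb).trans hut).trans (hCt a ha)
    · exact hC a ha b hb
  have hmem : ∑ u ∈ C0 ∪ C, h u ∈ V := by
    refine ⟨_, hch, ?_, rfl⟩
    intro v hv
    rw [Finset.mem_union] at hv
    rcases hv with hv | hv
    · exact hC0s v hv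
    · exact (hsu.trans hut).trans (hCt v hv)
  have h1 := le_csSup hVb hmem
  rw [Finset.sum_union hdisj] at h1
  linarith


/-! ### the approximation point -/

/-- ancestor at level `n` -/
def anc (n : ℕ) (v : Node) : Node := v.drop (v.length - n)

lemma anc_suffix (n : ℕ) (v : Node) : anc n v <:+ v := List.drop_suffix _ _

lemma anc_length {n : ℕ} {v : Node} (h : n ≤ v.length) : (anc n v).length = n := by
  simp only [anc, List.length_drop]; omega

lemma anc_eq {n : ℕ} {s v : Node} (hs : s.length = n) (h : s <:+ v) : anc n v = s := by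
  have h1 := h.length_le
  have h2 : (anc n v).length = s.length := by rw [anc_length (by omega), hs]
  exact (List.suffix_of_suffix_length_le (anc_suffix n v) h h2.le).eq_of_length h2

lemma anc_cons {n : ℕ} {v : Node} (b : Bool) (h : n ≤ v.length) : anc n (b :: v) = anc n v :=
  anc_eq (anc_length h) ((anc_suffix n v).trans (List.suffix_cons _ _))

/-- key construction -/
lemma exists_point (x : Node →₀ ℝ) (hx : stNorm x ≤ 1) (h : Node → ℝ) (hh : ∀ u, 0 ≤ h u) (K : ℝ)
    (hK : ∀ C : Finset Node, IsCh (C : Set Node) → ∑ u ∈ C, h u ≤ K) {ε : ℝ} (hε : 0 < ε) :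
    ∃ (x' : Node →₀ ℝ) (D : Finset Node), stNorm x' ≤ 1 ∧ IsAnti (D : Set Node) ∧
      (∑ t ∈ D, x' t = 1) ∧ (∀ t ∈ D, 0 ≤ x' t) ∧
      (∀ t ∈ D, ∀ C : Finset Node, IsCh (C : Set Node) → (∀ u ∈ C, t <:+ u) → ∑ u ∈ C, h u ≤ ε) ∧
      (∀ t, t ∉ D → x' t = x t) ∧ (∀ t ∈ D, x t = 0) := by
  classical
  -- level beyond the support
  obtain ⟨n, hn⟩ : ∃ n, ∀ u ∈ x.support, u.length ≤ n :=
    ⟨x.support.sup List.length, fun u hu => Finset.le_sup (f := List.length) hu⟩
  choose τ hτ1 hτ2 hτ3 using fun s : Node => good_desc h K hK s n hε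
  set c := flow x with hc
  have hc0 : ∀ t, 0 ≤ c t := fun t => (Nx_nonneg x t).trans (flow_ge hx t)
  have hanc : ∀ s, s.length = n → anc n (τ s) = s := fun s hs => anc_eq hs (hτ1 s)
  set D : Finset Node := (lev n).image τ with hD
  have hmemD : ∀ t, t ∈ D ↔ n < t.length ∧ t = τ (anc n t) := by
    intro t
    rw [hD, Finset.mem_image]
    constructor
    · rintro ⟨s, hs, rfl⟩
      rw [mem_lev] at hs
      exact ⟨hτ2 s, by rw [hanc s hs]⟩
    · rintro ⟨h1, h2⟩
      exact ⟨anc n t, (mem_lev n _).2 (anc_length h1.le), h2.symm⟩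
  set f : Node → ℝ := fun v => if v ∈ D then c (anc n v) else x v with hf
  set x' : Node →₀ ℝ := Finsupp.onFinset (x.support ∪ D) f (by
    intro v hv
    by_cases h1 : v ∈ D
    · exact Finset.mem_union_right _ h1
    · simp only [hf, if_neg h1] at hv
      exact Finset.mem_union_left _ (Finsupp.mem_support_iff.2 hv)) with hx'
  have hx'v : ∀ v, x' v = f v := fun v => rfl
  have hxD : ∀ t ∈ D, x t = 0 := by
    intro t ht
    by_contra hne
    have h1 := hn t (Finsupp.mem_support_iff.2 hne)
    have h2 := ((hmemD t).1 ht).1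
    omega
  have hDanti : IsAnti (D : Set Node) := by
    intro a ha b hb hab
    obtain ⟨h1, h2⟩ := (hmemD a).1 ha
    obtain ⟨h3, h4⟩ := (hmemD b).1 hb
    have : anc n b = anc n a := anc_eq (anc_length h1.le) ((anc_suffix n a).trans hab)
    rw [h2, h4, this]
  -- superflow
  set c' : Node → ℝ := fun v => if v.length ≤ n then c v else
    if v <:+ τ (anc n v) then c (anc n v) else 0 with hc'
  have hc'0 : ∀ v, 0 ≤ c' v := by
    intro v
    simp only [hc']
    split_ifs
    · exact hc0 _
    · exact hc0 _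
    · exact le_rfl
  have hc'ge : ∀ v, n ≤ v.length → c' v = if v <:+ τ (anc n v) then c (anc n v) else 0 := by
    intro v hv
    by_cases h1 : v.length ≤ n
    · have h2 : v.length = n := le_antisymm h1 hv
      have h3 : anc n v = v := anc_eq h2 List.suffix_rfl
      simp only [hc', if_pos h1]
      rw [h3, if_pos (hτ1 v)]
    · simp only [hc', if_neg h1]
  have hsuper : ∀ t, c' (true :: t) + c' (false :: t) ≤ c' t := by
    intro t
    by_cases h1 : t.length < n
    · have e1 : c' (true :: t) = c (true :: t) := by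
        simp only [hc', List.length_cons, if_pos (show t.length + 1 ≤ n by omega)]
      have e2 : c' (false :: t) = c (false :: t) := by
        simp only [hc', List.length_cons, if_pos (show t.length + 1 ≤ n by omega)]
      have e3 : c' t = c t := by
        simp only [hc', if_pos h1.le]
      rw [e1, e2, e3, hc, flow_add]
    · push Not at h1
      rw [hc'ge t h1, hc'ge (true :: t) (by simp only [List.length_cons]; omega),
        hc'ge (false :: t) (by simp only [List.length_cons]; omega), anc_cons _ h1, anc_cons _ h1]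
      by_cases k1 : (true :: t) <:+ τ (anc n t)
      · have k2 : ¬ (false :: t) <:+ τ (anc n t) := fun k => not_both k1 k
        rw [if_pos k1, if_neg k2, if_pos ((List.suffix_cons _ _).trans k1), add_zero]
      · rw [if_neg k1, zero_add]
        by_cases k2 : (false :: t) <:+ τ (anc n t)
        · rw [if_pos k2, if_pos ((List.suffix_cons _ _).trans k2)]
        · rw [if_neg k2]
          split_ifs
          · exact hc0 _
          · exact le_rfl
  have hdom : ∀ v, |x' v| ≤ c' v := by
    intro v
    rw [hx'v]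
    by_cases h1 : v ∈ D
    · obtain ⟨k1, k2⟩ := (hmemD v).1 h1
      simp only [hf, if_pos h1]
      rw [hc'ge v k1.le, if_pos (by rw [← k2]), abs_of_nonneg (hc0 _)]
    · simp only [hf, if_neg h1]
      by_cases h2 : v.length ≤ n
      · simp only [hc', if_pos h2]
        exact (coord_le_Nx x v).trans (flow_ge hx v)
      · have : x v = 0 := by
          by_contra hne
          exact h2 (hn v (Finsupp.mem_support_iff.2 hne))
        rw [this, abs_zero]
        exact hc'0 v
  refine ⟨x', D, ?_, hDanti, ?_, ?_, ?_, ?_, hxD⟩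
  · refine stNorm_le fun A hA => ?_
    obtain ⟨m, hm⟩ : ∃ m, ∀ u ∈ x'.support, u.length ≤ m :=
      ⟨x'.support.sup List.length, fun u hu => Finset.le_sup (f := List.length) hu⟩
    have h1 : SA A x' ≤ ∑ u ∈ x'.support.filter (· ∈ A), c' u := by
      unfold SA
      rw [Finset.sum_filter]
      refine Finset.sum_le_sum fun u _ => ?_
      by_cases hu : u ∈ A
      · rw [Set.indicator_of_mem hu, if_pos hu]; exact hdom u
      · rw [Set.indicator_of_notMem hu, if_neg hu]
    have h2 := superflow c' hc'0 hsuper m [] (x'.support.filter (· ∈ A)) (by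
      intro a ha b hb hab
      exact hA a (Finset.mem_filter.1 ha).2 b (Finset.mem_filter.1 hb).2 hab)
      (fun u _ => List.nil_suffix) (by
      intro u hu
      have := hm u (Finset.mem_filter.1 hu).1
      simpa using this)
    have h3 : c' [] = 1 := by simp [hc', hc, flow]
    linarith
  · rw [hD, Finset.sum_image]
    · rw [← sum_lev x n]
      refine Finset.sum_congr rfl fun s hs => ?_
      have hs' := (mem_lev n s).1 hs
      have : τ s ∈ D := Finset.mem_image_of_mem _ hs
      rw [hx'v]
      simp only [hf, if_pos this]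
      rw [hanc s hs']
    · intro a ha b hb hab
      have ha' := (mem_lev n a).1 ha
      have hb' := (mem_lev n b).1 hb
      rw [← hanc a ha', ← hanc b hb', hab]
  · intro t ht
    rw [hx'v]
    simp only [hf, if_pos ht]
    exact hc0 _
  · intro t ht C hC hCt
    obtain ⟨k1, k2⟩ := (hmemD t).1 ht
    refine hτ3 (anc n t) C hC fun u hu => ?_
    rw [← k2]; exact hCt u hu
  · intro t ht
    rw [hx'v]
    simp only [hf, if_neg ht]

/-- key estimate: a finitely supported `z` of norm about one with coordinates near those of `x'`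
nearly agrees with `x'` on functionals controlled by `h` -/
lemma key_estimate (x' z : Node →₀ ℝ) (D R : Finset Node) (h : Node → ℝ) (hh : ∀ u, 0 ≤ h u)
    {K ε η : ℝ} (hK : ∀ C : Finset Node, IsCh (C : Set Node) → ∑ u ∈ C, h u ≤ K) (hε : 0 < ε)
    (hη : 0 < η) (hDanti : IsAnti (D : Set Node)) (hDsum : ∑ t ∈ D, x' t = 1)
    (hD0 : ∀ t ∈ D, 0 ≤ x' t)
    (hDgood : ∀ t ∈ D, ∀ C : Finset Node, IsCh (C : Set Node) → (∀ u ∈ C, t <:+ u) → ∑ u ∈ C, h u ≤ ε)
    (hRx : x'.support ⊆ R) (hDR : D ⊆ R) (hRD : ∀ u, u ∉ R → ∀ t ∈ D, ¬ u <:+ t)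
    (hz : stNorm z ≤ 1 + η) (hzR : ∀ t ∈ R, |z t - x' t| ≤ η) :
    ∑ t ∈ z.support ∪ R, h t * |z t - x' t| ≤
      (∑ t ∈ R, h t) * η + ε * (1 + η) + K * (η + D.card * η) := by
  classical
  have hK0 : 0 ≤ K := by simpa using hK ∅ (by simp [IsCh])
  have hsplit : z.support ∪ R = R ∪ (z.support.filter (fun u => u ∉ R ∧ ∃ t ∈ D, t <:+ u)) ∪
      (z.support.filter (fun u => u ∉ R ∧ ¬ ∃ t ∈ D, t <:+ u)) := by
    ext u
    simp only [Finset.mem_union, Finset.mem_filter]
    by_cases h1 : u ∈ R <;> by_cases h2 : ∃ t ∈ D, t <:+ u <;> simp [h1, h2]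
  set S1 := z.support.filter (fun u => u ∉ R ∧ ∃ t ∈ D, t <:+ u) with hS1
  set S2 := z.support.filter (fun u => u ∉ R ∧ ¬ ∃ t ∈ D, t <:+ u) with hS2
  have hd1 : Disjoint R S1 := by
    rw [Finset.disjoint_left]; intro u hu hu'
    exact (Finset.mem_filter.1 hu').2.1 hu
  have hd2 : Disjoint (R ∪ S1) S2 := by
    rw [Finset.disjoint_left]; intro u hu hu'
    obtain ⟨_, h1, h2⟩ := Finset.mem_filter.1 hu'
    rcases Finset.mem_union.1 hu with hu | hu
    · exact h1 hu
    · exact h2 (Finset.mem_filter.1 hu).2.2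
  rw [hsplit, Finset.sum_union hd2, Finset.sum_union hd1]
  have hx0 : ∀ u, u ∉ R → x' u = 0 := fun u hu =>
    Finsupp.notMem_support_iff.1 fun h => hu (hRx h)
  have e0 : ∑ t ∈ R, h t * |z t - x' t| ≤ (∑ t ∈ R, h t) * η := by
    rw [Finset.sum_mul]
    exact Finset.sum_le_sum fun t ht => mul_le_mul_of_nonneg_left (hzR t ht) (hh t)
  have hSAle : ∀ A : Finset Node, IsAnti (A : Set Node) → ∑ u ∈ A, |z u| ≤ 1 + η := by
    intro A hA
    refine le_trans ?_ ((SA_le z hA).trans hz)
    rw [SA_eq _ z (z.support ∪ A) Finset.subset_union_left]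
    calc ∑ u ∈ A, |z u| = ∑ u ∈ A, (A : Set Node).indicator (fun t => |z t|) u := by
          refine Finset.sum_congr rfl fun u hu => ?_
          rw [Set.indicator_of_mem (Finset.mem_coe.2 hu)]
      _ ≤ _ := Finset.sum_le_sum_of_subset_of_nonneg Finset.subset_union_right
        fun u _ _ => Set.indicator_nonneg (fun _ _ => abs_nonneg _) u
  have e1 : ∑ t ∈ S1, h t * |z t - x' t| ≤ ε * (1 + η) := by
    have : ∑ t ∈ S1, h t * |z t - x' t| = ∑ t ∈ S1, h t * |z t| := by
      refine Finset.sum_congr rfl fun u hu => ?_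
      rw [hx0 u (Finset.mem_filter.1 hu).2.1, sub_zero]
    rw [this]
    refine mirsky _ S1 le_rfl h z ε (1 + η) (fun u _ => hh u) hε.le (by linarith) ?_ ?_
    · intro C hCS hC
      rcases C.eq_empty_or_nonempty with he | ⟨u0, hu0⟩
      · rw [he, Finset.sum_empty]; exact hε.le
      · -- all elements of C lie below the same t
        obtain ⟨t0, ht0, ht0u⟩ := (Finset.mem_filter.1 (hCS hu0)).2.2
        refine hDgood t0 ht0 C hC fun u hu => ?_
        obtain ⟨t1, ht1, ht1u⟩ := (Finset.mem_filter.1 (hCS hu)).2.2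
        rcases hC u0 hu0 u hu with h1 | h1
        · exact ht0u.trans h1
        · have h2 : t1 <:+ u0 := ht1u.trans h1
          have h3 : t0 = t1 := by
            rcases List.suffix_or_suffix_of_suffix ht0u h2 with h3 | h3
            · exact hDanti t0 ht0 t1 ht1 h3
            · exact (hDanti t1 ht1 t0 ht0 h3).symm
          rw [h3]; exact ht1u
    · intro A _ hA
      exact hSAle A hA
  have e2 : ∑ t ∈ S2, h t * |z t - x' t| ≤ K * (η + D.card * η) := by
    have : ∑ t ∈ S2, h t * |z t - x' t| = ∑ t ∈ S2, h t * |z t| := by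
      refine Finset.sum_congr rfl fun u hu => ?_
      rw [hx0 u (Finset.mem_filter.1 hu).2.1, sub_zero]
    rw [this]
    refine mirsky _ S2 le_rfl h z K (η + D.card * η) (fun u _ => hh u) hK0 (by positivity) ?_ ?_
    · intro C _ hC
      exact hK C hC
    · intro A hAS hA
      have hAD : Disjoint A D := by
        rw [Finset.disjoint_left]; intro u hu hu'
        exact (Finset.mem_filter.1 (hAS hu)).2.1 (hDR hu')
      have hanti : IsAnti ((A ∪ D : Finset Node) : Set Node) := by
        intro a ha b hb hab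
        rw [Finset.mem_coe, Finset.mem_union] at ha hb
        rcases ha with ha | ha <;> rcases hb with hb | hb
        · exact hA a ha b hb hab
        · exact absurd hab (hRD a (Finset.mem_filter.1 (hAS ha)).2.1 b hb)
        · exact absurd ⟨a, ha, hab⟩ (Finset.mem_filter.1 (hAS hb)).2.2
        · exact hDanti a ha b hb hab
      have h1 := hSAle (A ∪ D) hanti
      rw [Finset.sum_union hAD] at h1
      have h2 : 1 - D.card * η ≤ ∑ u ∈ D, |z u| := by
        have h3 : ∑ t ∈ D, (x' t - η) ≤ ∑ u ∈ D, |z u| := by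
          refine Finset.sum_le_sum fun t ht => ?_
          have := hzR t (hDR ht)
          rw [abs_le] at this
          have h4 := le_abs_self (z t)
          linarith [this.1]
        rw [Finset.sum_sub_distrib, hDsum, Finset.sum_const, nsmul_eq_mul] at h3
        exact h3
      linarith
  linarith


/-! ### the space -/

/-- the inclusion of finitely supported families -/
noncomputable def inc (x : Node →₀ ℝ) : X := ((show C00 from x : C00) : UniformSpace.Completion C00)

lemma inc_norm (x : Node →₀ ℝ) : ‖inc x‖ = stNorm x :=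
  UniformSpace.Completion.norm_coe (show C00 from x)

lemma inc_add (x y : Node →₀ ℝ) : inc (x + y) = inc x + inc y :=
  UniformSpace.Completion.coe_add (show C00 from x) (show C00 from y)

lemma inc_sub (x y : Node →₀ ℝ) : inc (x - y) = inc x - inc y :=
  UniformSpace.Completion.coe_sub (show C00 from x) (show C00 from y)

lemma inc_smul (c : ℝ) (x : Node →₀ ℝ) : inc (c • x) = c • inc x :=
  UniformSpace.Completion.coe_smul c (show C00 from x)

lemma inc_dense (z : X) {r : ℝ} (hr : 0 < r) : ∃ x : Node →₀ ℝ, ‖z - inc x‖ < r := by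
  have h := UniformSpace.Completion.denseRange_coe (α := C00)
  obtain ⟨x, hx⟩ := Metric.denseRange_iff.1 h z r hr
  exact ⟨x, by rw [← dist_eq_norm]; exact hx⟩

/-- linear version of the inclusion -/
noncomputable def incL : (Node →₀ ℝ) →ₗ[ℝ] X where
  toFun := inc
  map_add' := inc_add
  map_smul' := inc_smul

/-- coordinates on `C00` -/
noncomputable def coord0 (t : Node) : C00 →L[ℝ] ℝ :=
  LinearMap.mkContinuous
    { toFun := fun x => (show Node →₀ ℝ from x) t
      map_add' := fun _ _ => rfl
      map_smul' := fun _ _ => rfl } 1 (fun x => by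
        rw [one_mul]
        exact coord_le (show Node →₀ ℝ from x) t)

/-- coordinates on `X` -/
noncomputable def coord (t : Node) : X →L[ℝ] ℝ :=
  (coord0 t).extend (UniformSpace.Completion.toComplL : C00 →L[ℝ] UniformSpace.Completion C00)

lemma coord_inc (t : Node) (x : Node →₀ ℝ) : coord t (inc x) = x t := by
  have := ContinuousLinearMap.extend_eq (coord0 t)
    (e := (UniformSpace.Completion.toComplL : C00 →L[ℝ] UniformSpace.Completion C00))
    UniformSpace.Completion.denseRange_coe (UniformSpace.Completion.isUniformInducing_coe C00)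
    (show C00 from x)
  exact this

lemma coord_norm (t : Node) (z : X) : |coord t z| ≤ ‖z‖ := by
  refine UniformSpace.Completion.induction_on z
    (isClosed_le (by fun_prop) continuous_norm) fun a => ?_
  have := coord_inc t (show Node →₀ ℝ from a)
  change |coord t (inc (show Node →₀ ℝ from a))| ≤ ‖inc (show Node →₀ ℝ from a)‖
  rw [this, inc_norm]
  exact coord_le _ _

lemma f_inc (f : X →L[ℝ] ℝ) (y : Node →₀ ℝ) (S : Finset Node) (hS : y.support ⊆ S) :
    f (inc y) = ∑ t ∈ S, y t * f (inc (Finsupp.single t 1)) := by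
  have h1 : y = ∑ t ∈ S, y t • Finsupp.single t 1 := by
    conv_lhs => rw [← Finsupp.sum_single y]
    rw [Finsupp.sum_of_support_subset y hS _ (by simp)]
    refine Finset.sum_congr rfl fun t _ => ?_
    simp
  have h2 : inc y = ∑ t ∈ S, y t • inc (Finsupp.single t 1) := by
    change incL y = ∑ t ∈ S, y t • incL (Finsupp.single t 1)
    conv_lhs => rw [h1]
    rw [map_sum]
    simp only [map_smul]
  rw [h2, map_sum]
  simp only [map_smul, smul_eq_mul]

/-- chain sums of the coefficients of a functional -/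
lemma chain_bound (f : X →L[ℝ] ℝ) (C : Finset Node) (hC : IsCh (C : Set Node)) :
    ∑ u ∈ C, |f (inc (Finsupp.single u 1))| ≤ ‖f‖ := by
  classical
  set a : Node → ℝ := fun u => f (inc (Finsupp.single u 1)) with ha
  set y : Node →₀ ℝ := Finsupp.onFinset C (fun u => if u ∈ C then SignType.sign (a u) else 0) (by
    intro u hu
    by_contra h
    simp [h] at hu) with hy
  have hyv : ∀ u, y u = if u ∈ C then (SignType.sign (a u) : ℝ) else 0 := fun u => rfl
  have hy1 : stNorm y ≤ 1 := by
    refine stNorm_le fun A hA => ?_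
    rw [SA_eq A y C Finsupp.support_onFinset_subset]
    have hone : ∀ u ∈ C, A.indicator (fun t => |y t|) u ≤ 1 := by
      intro u hu
      by_cases h : u ∈ A
      · rw [Set.indicator_of_mem h, hyv, if_pos hu]
        rcases lt_trichotomy (a u) 0 with h1 | h1 | h1
        · simp [sign_neg h1]
        · simp [h1]
        · simp [sign_pos h1]
      · rw [Set.indicator_of_notMem h]; norm_num
    by_cases hex : ∃ u ∈ C, u ∈ A
    · obtain ⟨u0, hu0, hu0A⟩ := hex
      rw [Finset.sum_eq_single u0]
      · exact hone u0 hu0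
      · intro v hv hne
        rw [Set.indicator_of_notMem]
        intro hvA
        rcases hC v hv u0 hu0 with h1 | h1
        · exact hne (hA v hvA u0 hu0A h1)
        · exact hne (hA u0 hu0A v hvA h1).symm
      · intro h; exact absurd hu0 h
    · push Not at hex
      rw [Finset.sum_eq_zero fun u hu => Set.indicator_of_notMem (hex u hu) _]
      norm_num
  have h1 : f (inc y) = ∑ u ∈ C, |a u| := by
    rw [f_inc f y C Finsupp.support_onFinset_subset]
    refine Finset.sum_congr rfl fun u hu => ?_
    rw [hyv, if_pos hu]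
    exact sign_mul_self (a u)
  rw [← h1]
  calc f (inc y) ≤ ‖f (inc y)‖ := le_abs_self _
    _ ≤ ‖f‖ * ‖inc y‖ := f.le_opNorm _
    _ ≤ ‖f‖ * 1 := by gcongr; rw [inc_norm]; exact hy1
    _ = ‖f‖ := mul_one _

/-- basic open sets -/
def Vset (R : Finset Node) (q : Node →₀ ℚ) (k : ℕ) : Set X :=
  {z : X | ‖z‖ ≤ 1 ∧ ∀ t ∈ R, |coord t z - (q t : ℝ)| < 1 / ((k : ℝ) + 1)}

lemma Vset_open (R : Finset Node) (q : Node →₀ ℚ) (k : ℕ) : RelWeaklyOpen (Vset R q k) := by
  refine ⟨{w | ∀ t ∈ R, |coord t ((toWeakSpace ℝ X).symm w) - (q t : ℝ)| < 1 / ((k : ℝ) + 1)}, ?_, rfl⟩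
  have : {w : WeakSpace ℝ X | ∀ t ∈ R, |coord t ((toWeakSpace ℝ X).symm w) - (q t : ℝ)| < 1 / ((k : ℝ) + 1)}
      = ⋂ t ∈ R, {w : WeakSpace ℝ X | |coord t ((toWeakSpace ℝ X).symm w) - (q t : ℝ)| < 1 / ((k : ℝ) + 1)} := by
    ext w; simp
  rw [this]
  refine isOpen_biInter_finset fun t _ => ?_
  have hc : Continuous fun w : WeakSpace ℝ X => coord t ((toWeakSpace ℝ X).symm w) :=
    WeakBilin.eval_continuous (topDualPairing ℝ X).flip (coord t)
  exact isOpen_lt (by fun_prop) continuous_const

/-- basic weak neighbourhoods -/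
lemma weak_nhd {O : Set (WeakSpace ℝ X)} (hO : IsOpen O) {z : X} (hz : toWeakSpace ℝ X z ∈ O) :
    ∃ (F : Finset (X →L[ℝ] ℝ)) (δ : ℝ), 0 < δ ∧
      ∀ y : X, ∑ f ∈ F, |f (y - z)| < δ → toWeakSpace ℝ X y ∈ O := by
  classical
  obtain ⟨O', hO', hO'e⟩ := isOpen_induced_iff.1 hO
  have hz' : (fun f : StrongDual ℝ X => (topDualPairing ℝ X).flip z f) ∈ O' := by
    exact (Set.ext_iff.1 hO'e (toWeakSpace ℝ X z)).2 hz
  obtain ⟨I, u, hu, hsub⟩ := isOpen_pi_iff.1 hO' _ hz'
  have h1 : ∀ a ∈ I, ∀ᶠ ε : ℝ in 𝓝[>] 0, Metric.ball ((topDualPairing ℝ X).flip z a) ε ⊆ u a := by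
    intro a ha
    obtain ⟨ε, hε, hb⟩ := Metric.isOpen_iff.1 (hu a ha).1 _ (hu a ha).2
    filter_upwards [Ioc_mem_nhdsGT hε] with δ hδ
    exact (Metric.ball_subset_ball hδ.2).trans hb
  have h2 := (Filter.eventually_all_finset I).2 h1
  obtain ⟨ε, hε, hε0⟩ := (h2.and self_mem_nhdsWithin).exists
  refine ⟨I, ε, hε0, fun y hy => ?_⟩
  have : (fun f : StrongDual ℝ X => (topDualPairing ℝ X).flip y f) ∈ O' := by
    apply hsub
    intro a ha
    apply hε a ha
    rw [Metric.mem_ball, Real.dist_eq]
    have h3 : (topDualPairing ℝ X).flip y a - (topDualPairing ℝ X).flip z a = a (y - z) := by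
      rw [map_sub]; rfl
    rw [h3]
    exact lt_of_le_of_lt (Finset.single_le_sum (f := fun f : X →L[ℝ] ℝ => |f (y - z)|)
      (fun _ _ => abs_nonneg _) ha) hy
  exact (Set.ext_iff.1 hO'e (toWeakSpace ℝ X y)).1 this

/-- **The closed unit ball of the stopping time space has a countable `π`-base for its relative
weak topology.** -/
theorem result : HasCountableWeakPiBase := by
  classical
  refine ⟨{V | (∃ p : Finset Node × (Node →₀ ℚ) × ℕ, V = Vset p.1 p.2.1 p.2.2) ∧ V.Nonempty}, ?_, ?_, ?_⟩
  · refine Set.Countable.mono (s₂ := Set.range fun p : Finset Node × (Node →₀ ℚ) × ℕ =>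
      Vset p.1 p.2.1 p.2.2) ?_ (Set.countable_range _)
    rintro V ⟨⟨p, rfl⟩, _⟩
    exact ⟨p, rfl⟩
  · rintro V ⟨⟨p, rfl⟩, hne⟩
    exact ⟨hne, Vset_open _ _ _⟩
  · rintro W ⟨z0, hz0⟩ ⟨O, hO, rfl⟩
    obtain ⟨hz01, hz0O⟩ := hz0
    obtain ⟨F, δ, hδ, hF⟩ := weak_nhd hO hz0O
    set K : ℝ := ∑ f ∈ F, ‖f‖ with hK
    have hK0 : 0 ≤ K := Finset.sum_nonneg fun _ _ => norm_nonneg _
    set h : Node → ℝ := fun u => ∑ f ∈ F, |f (inc (Finsupp.single u 1))| with hh
    have hh0 : ∀ u, 0 ≤ h u := fun u => Finset.sum_nonneg fun _ _ => abs_nonneg _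
    have hhK : ∀ C : Finset Node, IsCh (C : Set Node) → ∑ u ∈ C, h u ≤ K := by
      intro C hC
      rw [hh, Finset.sum_comm]
      exact Finset.sum_le_sum fun f _ => chain_bound f C hC
    have hFsum : ∀ (y : X), ∑ f ∈ F, |f y| ≤ K * ‖y‖ := by
      intro y
      rw [hK, Finset.sum_mul]
      exact Finset.sum_le_sum fun f _ => f.le_opNorm y
    have hFinc : ∀ (y : Node →₀ ℝ) (S : Finset Node), y.support ⊆ S →
        ∑ f ∈ F, |f (inc y)| ≤ ∑ t ∈ S, h t * |y t| := by
      intro y S hS
      calc ∑ f ∈ F, |f (inc y)| ≤ ∑ f ∈ F, ∑ t ∈ S, |y t| * |f (inc (Finsupp.single t 1))| := by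
            refine Finset.sum_le_sum fun f _ => ?_
            rw [f_inc f y S hS]
            refine (Finset.abs_sum_le_sum_abs _ _).trans ?_
            exact Finset.sum_le_sum fun t _ => (abs_mul _ _).le
        _ = ∑ t ∈ S, h t * |y t| := by
            rw [Finset.sum_comm]
            refine Finset.sum_congr rfl fun t _ => ?_
            rw [← Finset.mul_sum, mul_comm]
    -- finitely supported x near z0
    set r : ℝ := min 1 (δ / (16 * (K + 1))) with hr
    have hr0 : 0 < r := by rw [hr]; positivity
    obtain ⟨x0, hx0⟩ := inc_dense z0 hr0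
    have hx0n : stNorm x0 ≤ 1 + r := by
      rw [← inc_norm]
      calc ‖inc x0‖ = ‖z0 - (z0 - inc x0)‖ := by rw [sub_sub_cancel]
        _ ≤ ‖z0‖ + ‖z0 - inc x0‖ := norm_sub_le _ _
        _ ≤ 1 + r := by linarith
    set x : Node →₀ ℝ := (1 + r)⁻¹ • x0 with hx
    have hxn : stNorm x ≤ 1 := by
      rw [hx, stNorm_smul, abs_of_pos (by positivity), inv_mul_le_iff₀ (by positivity), mul_one]
      exact hx0n
    have hxz : ‖inc x - z0‖ ≤ 2 * r := by
      have h1 : inc x - z0 = (inc x0 - z0) + (inc x - inc x0) := by abel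
      have h2 : inc x - inc x0 = (-(r * (1 + r)⁻¹)) • inc x0 := by
        rw [hx, inc_smul]
        have : (-(r * (1 + r)⁻¹)) = (1 + r)⁻¹ - 1 := by field_simp; ring
        rw [this, sub_smul, one_smul]
      have h3 : ‖inc x - inc x0‖ ≤ r := by
        rw [h2, norm_smul, Real.norm_eq_abs, abs_neg, abs_of_pos (by positivity), inc_norm]
        calc r * (1 + r)⁻¹ * stNorm x0 ≤ r * (1 + r)⁻¹ * (1 + r) := by gcongr
          _ = r := by field_simp
      rw [h1]
      calc _ ≤ ‖inc x0 - z0‖ + ‖inc x - inc x0‖ := norm_add_le _ _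
        _ ≤ r + r := by
          gcongr
          rw [norm_sub_rev]; exact hx0.le
        _ = 2 * r := by ring
    have hKr : K * (2 * r) ≤ δ / 8 := by
      have : r ≤ δ / (16 * (K + 1)) := min_le_right _ _
      rw [le_div_iff₀ (by positivity)] at this
      nlinarith
    obtain ⟨x', D, hx'n, hDanti, hDsum, hD0, hDgood, hx'x, hxD⟩ :=
      exists_point x hxn h hh0 K hhK (show (0 : ℝ) < δ / 8 by positivity)
    -- level set
    obtain ⟨m, hm⟩ : ∃ m, ∀ u ∈ x'.support ∪ D, u.length ≤ m :=
      ⟨(x'.support ∪ D).sup List.length, fun u hu => Finset.le_sup (f := List.length) hu⟩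
    set R : Finset Node := (Finset.range (m + 1)).biUnion lev with hR
    have hmemR : ∀ u : Node, u ∈ R ↔ u.length ≤ m := by
      intro u
      rw [hR, Finset.mem_biUnion]
      constructor
      · rintro ⟨i, hi, hu⟩
        rw [mem_lev] at hu
        rw [Finset.mem_range] at hi
        omega
      · intro hu
        exact ⟨u.length, Finset.mem_range.2 (by omega), (mem_lev _ _).2 rfl⟩
    have hx'R : x'.support ⊆ R := fun u hu => (hmemR u).2 (hm u (Finset.mem_union_left _ hu))
    have hDR : D ⊆ R := fun u hu => (hmemR u).2 (hm u (Finset.mem_union_right _ hu))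
    have hRD : ∀ u, u ∉ R → ∀ t ∈ D, ¬ u <:+ t := by
      intro u hu t ht hut
      apply hu
      rw [hmemR]
      exact hut.length_le.trans (hm t (Finset.mem_union_right _ ht))
    set L : ℝ := 2 * K + ∑ t ∈ R, h t + K * D.card + 1 with hL
    have hHR : 0 ≤ ∑ t ∈ R, h t := Finset.sum_nonneg fun t _ => hh0 t
    have hL0 : 0 < L := by rw [hL]; positivity
    set η : ℝ := min 1 (δ / (8 * L)) with hη
    have hη0 : 0 < η := by rw [hη]; positivity
    have hη1 : η ≤ 1 := min_le_left _ _
    have hηL : L * η ≤ δ / 8 := by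
      have : η ≤ δ / (8 * L) := min_le_right _ _
      rw [le_div_iff₀ (by positivity)] at this
      linarith
    obtain ⟨k, hk⟩ := exists_nat_one_div_lt (show (0 : ℝ) < η / 4 by positivity)
    choose qf hqf using fun t : Node => exists_rat_btwn (show x' t < x' t + 1 / ((k : ℝ) + 1) by
      have : 0 < 1 / ((k : ℝ) + 1) := by positivity
      linarith)
    set q : Node →₀ ℚ := Finsupp.onFinset R (fun t => if t ∈ R then qf t else 0) (by
      intro u hu
      by_contra hne
      simp [hne] at hu) with hq
    have hqv : ∀ t ∈ R, (q t : ℝ) = qf t := by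
      intro t ht
      have : q t = if t ∈ R then qf t else 0 := rfl
      rw [this, if_pos ht]
    have hqx : ∀ t ∈ R, |x' t - (q t : ℝ)| < 1 / ((k : ℝ) + 1) := by
      intro t ht
      rw [hqv t ht, abs_lt]
      have := hqf t
      constructor <;> linarith [this.1, this.2]
    refine ⟨Vset R q k, ⟨⟨(R, q, k), rfl⟩, inc x', ?_, ?_⟩, ?_⟩
    · rw [inc_norm]; exact hx'n
    · intro t ht
      rw [coord_inc]
      exact hqx t ht
    · rintro z ⟨hz1, hzR⟩
      refine ⟨hz1, hF z ?_⟩
      obtain ⟨y, hy⟩ := inc_dense z (show (0 : ℝ) < η / 2 by positivity)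
      have hyn : stNorm y ≤ 1 + η := by
        rw [← inc_norm]
        calc ‖inc y‖ = ‖z - (z - inc y)‖ := by rw [sub_sub_cancel]
          _ ≤ ‖z‖ + ‖z - inc y‖ := norm_sub_le _ _
          _ ≤ 1 + η := by linarith
      have hyR : ∀ t ∈ R, |y t - x' t| ≤ η := by
        intro t ht
        have h1 : |coord t (z - inc y)| < η / 2 := (coord_norm t _).trans_lt hy
        rw [map_sub, coord_inc, abs_lt] at h1
        have h2 := hzR t ht
        have h3 := hqx t ht
        rw [abs_lt] at h2 h3
        rw [abs_le]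
        constructor <;> linarith [h1.1, h1.2, h2.1, h2.2, h3.1, h3.2]
      have hkey := key_estimate x' y D R h hh0 hhK (show (0 : ℝ) < δ / 8 by positivity) hη0 hDanti
        hDsum hD0 hDgood hx'R hDR hRD hyn hyR
      have a1 : ∑ f ∈ F, |f (z - inc y)| ≤ K * η := by
        refine (hFsum _).trans ?_
        gcongr
        linarith
      have a2 : ∑ f ∈ F, |f (inc (y - x'))| ≤ ∑ t ∈ y.support ∪ R, h t * |y t - x' t| := by
        have := hFinc (y - x') (y.support ∪ R) (by
          intro u hu
          rcases Finset.mem_union.1 (Finsupp.support_sub hu) with h1 | h1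
          · exact Finset.mem_union_left _ h1
          · exact Finset.mem_union_right _ (hx'R h1))
        simpa using this
      have a3 : ∑ f ∈ F, |f (inc (x' - x))| ≤ δ / 8 := by
        have h1 := hFinc (x' - x) D (by
          intro u hu
          by_contra hne
          rw [Finsupp.mem_support_iff, Finsupp.sub_apply, hx'x u hne, sub_self] at hu
          exact hu rfl)
        refine h1.trans ?_
        calc ∑ t ∈ D, h t * |(x' - x) t| ≤ ∑ t ∈ D, (δ / 8) * x' t := by
              refine Finset.sum_le_sum fun t ht => ?_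
              rw [Finsupp.sub_apply, hxD t ht, sub_zero, abs_of_nonneg (hD0 t ht)]
              have h2 := hDgood t ht {t} (by
                intro a ha b hb
                simp only [Finset.coe_singleton, Set.mem_singleton_iff] at ha hb
                left; rw [ha, hb]) (by simp)
              rw [Finset.sum_singleton] at h2
              exact mul_le_mul_of_nonneg_right h2 (hD0 t ht)
          _ = δ / 8 := by rw [← Finset.mul_sum, hDsum, mul_one]
      have a4 : ∑ f ∈ F, |f (inc x - z0)| ≤ δ / 8 := (hFsum _).trans ((by gcongr : K * ‖inc x - z0‖ ≤ K * (2 * r)).trans hKr)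
      have htot : ∑ f ∈ F, |f (z - z0)| ≤ ∑ f ∈ F, |f (z - inc y)| + ∑ f ∈ F, |f (inc (y - x'))|
          + ∑ f ∈ F, |f (inc (x' - x))| + ∑ f ∈ F, |f (inc x - z0)| := by
        rw [← Finset.sum_add_distrib, ← Finset.sum_add_distrib, ← Finset.sum_add_distrib]
        refine Finset.sum_le_sum fun f _ => ?_
        have e : z - z0 = (z - inc y) + inc (y - x') + inc (x' - x) + (inc x - z0) := by
          rw [inc_sub, inc_sub]; abel
        rw [e, map_add, map_add, map_add]
        refine (abs_add_le _ _).trans (add_le_add_left ?_ _)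
        refine (abs_add_le _ _).trans (add_le_add_left ?_ _)
        exact abs_add_le _ _
      have hfin : K * η + ((∑ t ∈ R, h t) * η + δ / 8 * (1 + η) + K * (η + D.card * η)) + δ / 8 + δ / 8
          < δ := by
        have : K * η + (∑ t ∈ R, h t) * η + K * (η + D.card * η) ≤ L * η := by
          rw [hL]; nlinarith
        nlinarith
      linarith

end Pool.Agent.Results.MP_66f42e_an.CountablePiBase
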